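import Pool.Agent.Q138.Ch.Chain

/-!
# Invariant chains of convex sets and closed affine manifolds

Chern's conjecture says that closed affine manifolds have Euler characteristic zero. A closed
affine manifold with non-zero Euler characteristic has no finite covering with a vector field
without zeros (Poincare and Hopf). We prove that for every closed affine manifold with this property
there are, after a finite covering, an invariant affine subspace `H` of positive dimension which
meets the developing image, such that, for all subgroups `K` of finite index,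

* every `K`-invariant chain of nonempty convex subsets of `H` is trivial: all members are equal to
  `H`;
* every quasiconvex function on `H`, with values in any linearly ordered set, whose sublevel sets
  are permuted monotonically by `K` is constant.

The second statement applies to convex functions `F` with `F ∘ γ = χ(γ) F + τ(γ)`, `χ(γ) > 0`. By the
known cases of the conjecture `H` has dimension at least four. So in dimension four `H` is the whole
affine space.
-/

set_option autoImplicit false

open Set Filter Topology

namespace Pool.Agent.Results.MP_1fa9a4_gt.ChainsOfConvexSets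

/-- A closed affine manifold `Γ \ X` modelled on the vector space `E`: the group `Γ` acts on the
Hausdorff space `X` properly discontinuously and with compact quotient, and the developing map
`dev` is a local homeomorphism to `E` that is equivariant with respect to the affine holonomy
`hol`. -/
structure ClosedAffine (X Γ E : Type) [TopologicalSpace X] [Group Γ] [MulAction Γ X]
    [NormedAddCommGroup E] [NormedSpace ℝ E] (dev : X → E) (hol : Γ →* (E ≃ᵃ[ℝ] E)) : Prop where
  /-- the developing map is a local homeomorphism -/
  loc : IsLocalHomeomorph dev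
  /-- the group acts by homeomorphisms -/
  cont : ∀ γ : Γ, Continuous fun x : X => γ • x
  /-- the developing map is equivariant -/
  equi : ∀ (γ : Γ) (x : X), dev (γ • x) = hol γ (dev x)
  /-- the action is properly discontinuous -/
  pd : ∀ K : Set X, IsCompact K → {γ : Γ | ∃ x ∈ K, γ • x ∈ K}.Finite
  /-- the quotient is compact -/
  cc : ∃ K : Set X, IsCompact K ∧ ∀ x : X, ∃ γ : Γ, ∃ k ∈ K, γ • k = x

variable {X Γ E : Type} [TopologicalSpace X] [Group Γ] [MulAction Γ X] [NormedAddCommGroup E]
  [NormedSpace ℝ E]

/-- The covering `K \ X` of `Γ \ X` has a continuous vector field without zeros. -/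
def HasField (hol : Γ →* (E ≃ᵃ[ℝ] E)) (X : Type) [TopologicalSpace X] [MulAction Γ X]
    (K : Subgroup Γ) : Prop :=
  ∃ Z : X → E, Continuous Z ∧ (∀ γ ∈ K, ∀ x : X, Z (γ • x) = (hol γ).linear (Z x)) ∧ ∀ x, Z x ≠ 0

/-- Every `K`-invariant family of convex subsets of `H` which is totally ordered by inclusion has
only the members `∅` and `H`. -/
def ChainsTrivial (hol : Γ →* (E ≃ᵃ[ℝ] E)) (K : Subgroup Γ) (H : Set E) : Prop :=
  ∀ 𝒞 : Set (Set E), (∀ C ∈ 𝒞, Convex ℝ C ∧ C ⊆ H) → (∀ C ∈ 𝒞, ∀ C' ∈ 𝒞, C ⊆ C' ∨ C' ⊆ C) →
    (∀ γ ∈ K, ∀ C ∈ 𝒞, hol γ '' C ∈ 𝒞) → ∀ C ∈ 𝒞, C.Nonempty → C = H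

/-- Let `F` be a function on `H` with values in a linearly ordered set, with convex sublevel sets,
such that for every `γ ∈ K` there is a monotone map `h` with `F (γ q) = h (F q)` on `H`. Then `F`
is constant on `H`. -/
def FunctionsConstant (hol : Γ →* (E ≃ᵃ[ℝ] E)) (K : Subgroup Γ) (H : Set E) : Prop :=
  ∀ (β : Type) [LinearOrder β] (F : E → β), QuasiconvexOn ℝ H F →
    (∀ γ ∈ K, ∃ h : β → β, Monotone h ∧ ∀ q ∈ H, F (hol γ q) = h (F q)) →
    ∀ p ∈ H, ∀ q ∈ H, F p = F q

/-- **Theorem.** Let `Γ \ X` be a closed affine manifold of positive dimension, with `X` connected,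
such that no finite covering of it has a vector field without zeros (this is the case if its Euler
characteristic is not zero). Then there are a subgroup `G` of finite index and a `G`-invariant
affine subspace `H` of positive dimension, which meets the developing image, such that for every
subgroup `K` of finite index in `G` all `K`-invariant chains of nonempty convex subsets of `H` are
trivial, and all quasiconvex functions on `H` whose sublevel sets are permuted monotonically by `K`
are constant. -/
theorem result [T2Space X] [ConnectedSpace X] [FiniteDimensional ℝ E] [Nontrivial E]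
    {dev : X → E} {hol : Γ →* (E ≃ᵃ[ℝ] E)} (D : ClosedAffine X Γ E dev hol)
    (hno : ∀ K : Subgroup Γ, K.FiniteIndex → ¬ HasField hol X K) :
    ∃ (G : Subgroup Γ) (H : AffineSubspace ℝ E), G.FiniteIndex ∧
      (∀ γ ∈ G, ∀ q ∈ H, hol γ q ∈ H) ∧ H.direction ≠ ⊥ ∧ (∃ x, dev x ∈ H) ∧
      ∀ K ≤ G, K.FiniteIndex → ChainsTrivial hol K H ∧ FunctionsConstant hol K H := by
  have D' : Pool.Agent.W689.Ch.AffMfd X Γ E dev hol := ⟨D.loc, D.cont, D.equi, D.pd, D.cc⟩
  obtain ⟨G, H, x₀, m⟩ := Pool.Agent.Y150.Ch.exists_min D' (fun K hK ⟨Z, h1, h2, h3⟩ =>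
    hno K hK ⟨Z, by
      have h4 : {x | dev x ∈ (⊤ : AffineSubspace ℝ E)} = univ :=
        eq_univ_of_forall fun x => trivial
      rw [h4] at h1
      exact continuousOn_univ.1 h1, fun γ hγ x => h3 ⟨γ, hγ⟩ x trivial,
      fun x => (h2 x trivial).2⟩)
  refine ⟨G, H, m.fin, m.inv, m.dir, ⟨x₀, m.mem⟩, fun K hK hKf => ⟨?_, ?_⟩⟩
  · intro 𝒞 h1 h2 h3
    exact Pool.Agent.Q138.Ch.chain_trivial D' m hK hKf (fun C hC => (h1 C hC).1)
      (fun C hC => (h1 C hC).2) h2 h3
  · intro β _ F hF hmon
    exact Pool.Agent.Q138.Ch.quasi_const D' m hK hKf hF hmon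

end Pool.Agent.Results.MP_1fa9a4_gt.ChainsOfConvexSets
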