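import Pool.Agent.W689.Ch.Main
import Pool.Agent.TH878.Mk.Chern
import Pool.Agent.Q138.Mk.Contr

/-!
# Contraction by affine transformations, and vector fields on closed affine manifolds

By Chern's conjecture the Euler characteristic of a closed affine manifold is zero. Let `X` be a
cover of a closed affine manifold `Γ \ X`, with developing map `dev : X → E`. An automorphism of `X` is
a homeomorphism of `X` that becomes an affine transformation of `E` under the developing map, for
instance a deck transformation, or a lift of an affine transformation of the manifold.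

A vector `v` is contracted at the point `x` modulo a subspace `S`, if there are automorphisms `f` of
`X` that keep `f x` in a compact set and whose derivatives move `v` arbitrarily close to `S`.

* If `v` is contracted at `x` (modulo `0`), then the geodesic from `x` with velocity `v` is defined for
  all times.
* If there is a chain `0 = S 0, S 1, …, S m` of subspaces of `E`, such that all vectors of `S (i + 1)`
  are contracted modulo `S i` at all points, and `S m` has codimension at most one, then the manifold
  is complete or it has a continuous vector field without zeros.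
-/

set_option autoImplicit false

open Set Filter Topology

namespace Pool.Agent.Results.MP_1fa9a4_gt.ContractedDirections

/-- A closed affine manifold `Γ \ X`, modelled on the vector space `E`: the group `Γ` acts on `X`
properly discontinuously and with compact quotient, and the developing map `dev` is a local
homeomorphism to `E` that is equivariant with respect to the affine holonomy `hol`. -/
structure ClosedAffine (X Γ E : Type) [TopologicalSpace X] [Group Γ] [MulAction Γ X]
    [NormedAddCommGroup E] [NormedSpace ℝ E] (dev : X → E) (hol : Γ →* (E ≃ᵃ[ℝ] E)) : Prop where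
  /-- the developing map is a local homeomorphism -/
  loc : IsLocalHomeomorph dev
  /-- the group acts by homeomorphisms -/
  cont : ∀ γ : Γ, Continuous fun x : X => γ • x
  /-- the developing map is equivariant -/
  equi : ∀ (γ : Γ) (x : X), dev (γ • x) = hol γ (dev x)
  /-- the action is properly discontinuous -/
  pd : ∀ C : Set X, IsCompact C → {γ : Γ | ∃ x ∈ C, γ • x ∈ C}.Finite
  /-- the quotient is compact -/
  cc : ∃ C : Set X, IsCompact C ∧ ∀ x : X, ∃ γ : Γ, ∃ k ∈ C, γ • k = x

variable {X Γ E : Type} [TopologicalSpace X] [Group Γ] [MulAction Γ X] [NormedAddCommGroup E]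
  [NormedSpace ℝ E]

/-- The manifold `Γ \ X` has a continuous vector field without zeros, written in the parallel frame
of the developing map. -/
def HasField (hol : Γ →* (E ≃ᵃ[ℝ] E)) (X : Type) [TopologicalSpace X] [MulAction Γ X] : Prop :=
  ∃ Z : X → E, Continuous Z ∧ (∀ (γ : Γ) x, Z (γ • x) = (hol γ).linear (Z x)) ∧ ∀ x, Z x ≠ 0

/-- The vector `v` is contracted at `x` modulo `S`: there is a compact set `C` such that for every
`ε > 0` some automorphism `(f, T)` of the affine structure of `X` satisfies `f x ∈ C` and moves `v`
to distance less than `ε` from `S`. -/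
def Contracted (dev : X → E) (S : Submodule ℝ E) (x : X) (v : E) : Prop :=
  ∃ C : Set X, IsCompact C ∧ ∀ ε : ℝ, 0 < ε → ∃ (f : X ≃ₜ X) (T : E ≃ᵃ[ℝ] E),
    (∀ z, dev (f z) = T (dev z)) ∧ f x ∈ C ∧ ∃ w ∈ S, ‖T.linear v - w‖ < ε

/-- The geodesic with initial point `x` and initial velocity `v` is defined for all times: for every
real `t` there is a geodesic with initial point `x` and velocity `t v`, defined on the unit interval. -/
def CompleteGeodesic (dev : X → E) (x : X) (v : E) : Prop :=
  ∀ t : ℝ, ∃ c : ℝ → X, ContinuousOn c (Icc 0 1) ∧ c 0 = x ∧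
    ∀ s ∈ Icc (0 : ℝ) 1, dev (c s) = dev x + s • t • v

/-- **Theorem.** Let `Γ \ X` be a closed affine manifold, with `X` connected.
(1) If a vector `v` is contracted at `x` modulo `0` by automorphisms of `X`, the geodesic from `x`
with velocity `v` is defined for all times.
(2) Let `0 = S 0, S 1, …, S m` be subspaces of `E` such that all vectors of `S (i + 1)` are
contracted modulo `S i` at all points of `X`, for every `i < m`, and let `S m` have codimension at
most one. Then the developing map is a homeomorphism, or there is a continuous vector field without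
zeros on `Γ \ X`. -/
theorem result [T2Space X] [ConnectedSpace X] [FiniteDimensional ℝ E]
    {dev : X → E} {hol : Γ →* (E ≃ᵃ[ℝ] E)} (D : ClosedAffine X Γ E dev hol) :
    (∀ x v, Contracted dev ⊥ x v → CompleteGeodesic dev x v) ∧
    ∀ (S : ℕ → Submodule ℝ E) (m : ℕ), S 0 = ⊥ →
      (∀ i < m, ∀ v ∈ S (i + 1), ∀ x, Contracted dev (S i) x v) →
      Module.finrank ℝ E ≤ Module.finrank ℝ (S m) + 1 →
      IsHomeomorph dev ∨ HasField hol X := by
  have D' : Pool.Agent.W689.Ch.AffMfd X Γ E dev hol := ⟨D.loc, D.cont, D.equi, D.pd, D.cc⟩
  refine ⟨fun x v hv t => ?_, fun S m h0 hS hr => ?_⟩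
  · have h1 : Contracted dev ⊥ x (t • v) := by
      obtain ⟨C, hC, h⟩ := hv
      refine ⟨C, hC, fun ε hε => ?_⟩
      obtain ⟨f, T, hf, hfx, w, hw, hlt⟩ := h (ε / (|t| + 1)) (by positivity)
      refine ⟨f, T, hf, hfx, t • w, Submodule.smul_mem _ t hw, ?_⟩
      have h2 : T.linear (t • v) - t • w = t • (T.linear v - w) := by
        rw [smul_sub, T.linear.map_smul]
      rw [h2, norm_smul, Real.norm_eq_abs]
      have h3 : |t| * (ε / (|t| + 1)) < ε := by
        rw [mul_div_assoc', div_lt_iff₀ (by positivity)]
        nlinarith [abs_nonneg t]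
      exact (mul_le_mul_of_nonneg_left hlt.le (abs_nonneg t)).trans_lt h3
    obtain ⟨y, hy⟩ := Pool.Agent.Q138.Mk.contr_step (S := ⊥) D.loc (fun x v hv => by
      rw [Submodule.mem_bot] at hv
      rw [hv]
      exact ⟨x, Pool.Agent.TH569.MK.ex_zero D.loc x⟩) h1
    exact hy.geod
  · have hall := Pool.Agent.Q138.Mk.contr_chain D.loc S m h0 hS
    by_cases htop : S m = ⊤
    · obtain ⟨x0⟩ := (inferInstance : Nonempty X)
      refine Or.inl (Pool.Agent.W689.Mk.homeo_of_all D.loc (x := x0) fun v => hall x0 v ?_)
      rw [htop]
      exact Submodule.mem_top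
    · by_contra hcon
      push Not at hcon
      obtain ⟨hinc, hno⟩ := hcon
      obtain ⟨f, hf, hle⟩ := Submodule.exists_le_ker_of_lt_top _ (lt_top_iff_ne_top.2 htop)
      have hr' : Module.finrank ℝ (LinearMap.ker f) < Module.finrank ℝ E := by
        apply Submodule.finrank_lt
        intro h1
        exact hf (LinearMap.ker_eq_top.1 h1)
      have heq := Submodule.eq_of_le_of_finrank_le hle (by omega)
      let φ : E →L[ℝ] ℝ := LinearMap.toContinuousLinearMap f
      have hφ : φ ≠ 0 := by
        intro h1
        apply hf
        ext v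
        exact congrArg (fun g : E →L[ℝ] ℝ => g v) h1
      have hker : ∀ v, φ v = 0 → v ∈ Pool.Agent.TH878.Mk.CD dev := fun v hv x => hall x v (by
        rw [heq]; exact hv)
      have hall := Pool.Agent.TH878.Mk.slab_all D.loc hφ hker
      have hinj : Function.Injective dev := by
        intro x y hxy
        obtain ⟨a, b, τ, hτ, hx, hy⟩ := hall x y
        rw [← hx.2, ← hy.2, hxy]
      have hconv : Convex ℝ (range dev) := by
        rintro _ ⟨x, rfl⟩ _ ⟨y, rfl⟩ s t hs ht hst
        obtain ⟨a, b, τ, hτ, hx, hy⟩ := hall x y
        have h1 := Pool.Agent.TH878.Mk.Slab.convex φ a b hx.1 hy.1 hs ht hst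
        exact ⟨_, hτ.inv _ h1⟩
      have hne : range dev ≠ univ := fun h =>
        hinc ⟨D.loc.continuous, D.loc.isOpenMap, hinj, range_eq_univ.1 h⟩
      obtain ⟨x0⟩ := (inferInstance : Nonempty X)
      exact (Pool.Agent.W689.Ch.main D' (S := range dev) (p := dev x0) ⟨x0, rfl⟩
        (hconv.starConvex ⟨x0, rfl⟩) hne
        (by rintro γ _ ⟨x, rfl⟩; exact ⟨γ • x, D.equi γ x⟩) hno).1 Subset.rfl

end Pool.Agent.Results.MP_1fa9a4_gt.ContractedDirections
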