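import Pool.Agent.Q138.Ch.Crit

/-!
# Critical points of functions on the affine space of a closed affine manifold

Chern's conjecture says that closed affine manifolds have Euler characteristic zero. A closed
affine manifold with non-zero Euler characteristic has no finite covering with a vector field
without zeros (Poincare and Hopf). We prove that for every closed affine manifold with this property
there are, after a finite covering, an invariant affine subspace `H` of positive dimension which
meets the developing image and has no proper invariant convex subsets, such that, for all subgroups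
`K` of finite index, the following holds for every nonempty convex set `𝓕` of `C¹` functions which is
preserved by `K` up to positive scalars and additive constants:

* some function in `𝓕` has, as a function on `H`, a critical point on the developing image;
* if the functions in `𝓕` are convex on `H` then some function in `𝓕` attains its minimum over `H` at
  a point of the developing image.

By the known cases of the conjecture `H` has dimension at least four. So in dimension four `H` is the
whole affine space.
-/

set_option autoImplicit false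

open Set Filter Topology

namespace Pool.Agent.Results.MP_1fa9a4_gt.CriticalPoints

/-- A closed affine manifold `Γ \ X` modelled on the vector space `E`: the group `Γ` acts on the
Hausdorff space `X` properly discontinuously and with compact quotient, and the developing map
`dev` is a local homeomorphism to `E` that is equivariant with respect to the affine holonomy
`hol`. -/
structure ClosedAffine (X Γ E : Type) [TopologicalSpace X] [Group Γ] [MulAction Γ X]
    [NormedAddCommGroup E] [NormedSpace ℝ E] (dev : X → E) (hol : Γ →* (E ≃ᵃ[ℝ] E)) : Prop where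
  /-- the developing map is a local homeomorphism -/
  loc : IsLocalHomeomorph dev
  /-- the group acts by homeomorphisms -/
  cont : ∀ γ : Γ, Continuous fun x : X => γ • x
  /-- the developing map is equivariant -/
  equi : ∀ (γ : Γ) (x : X), dev (γ • x) = hol γ (dev x)
  /-- the action is properly discontinuous -/
  pd : ∀ K : Set X, IsCompact K → {γ : Γ | ∃ x ∈ K, γ • x ∈ K}.Finite
  /-- the quotient is compact -/
  cc : ∃ K : Set X, IsCompact K ∧ ∀ x : X, ∃ γ : Γ, ∃ k ∈ K, γ • k = x

variable {X Γ E : Type} [TopologicalSpace X] [Group Γ] [MulAction Γ X] [NormedAddCommGroup E]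
  [NormedSpace ℝ E]

/-- The covering `K \ X` of `Γ \ X` has a continuous vector field without zeros. -/
def HasField (hol : Γ →* (E ≃ᵃ[ℝ] E)) (X : Type) [TopologicalSpace X] [MulAction Γ X]
    (K : Subgroup Γ) : Prop :=
  ∃ Z : X → E, Continuous Z ∧ (∀ γ ∈ K, ∀ x : X, Z (γ • x) = (hol γ).linear (Z x)) ∧ ∀ x, Z x ≠ 0

/-- `H` has no proper nonempty convex subset which is invariant under `K`. -/
def NoConvex (hol : Γ →* (E ≃ᵃ[ℝ] E)) (K : Subgroup Γ) (H : Set E) : Prop :=
  ∀ C ⊆ H, Convex ℝ C → C.Nonempty → (∀ γ ∈ K, ∀ q ∈ C, hol γ q ∈ C) → C = H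

/-- `𝓕` is a nonempty convex set of `C¹` functions, and for every `γ ∈ K` and `F ∈ 𝓕` the function
`F ∘ γ` agrees on `H` with `c F' + τ` for some `F' ∈ 𝓕` and real numbers `c > 0` and `τ`. -/
structure Family (hol : Γ →* (E ≃ᵃ[ℝ] E)) (K : Subgroup Γ) (H : Set E) (𝓕 : Set (E → ℝ)) :
    Prop where
  /-- the family is convex -/
  convex : Convex ℝ 𝓕
  /-- the family is nonempty -/
  nonempty : 𝓕.Nonempty
  /-- the functions are `C¹` -/
  smooth : ∀ F ∈ 𝓕, ContDiff ℝ 1 F
  /-- the family is preserved up to positive scalars and additive constants -/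
  semi : ∀ γ ∈ K, ∀ F ∈ 𝓕, ∃ F' ∈ 𝓕, ∃ c τ : ℝ, 0 < c ∧ ∀ q ∈ H, F (hol γ q) = c * F' q + τ

/-- Some function in `𝓕` has a critical point on the developing image, as a function on the affine
subspace `H` with direction `V`. -/
def HasCritical (dev : X → E) (H : Set E) (V : Submodule ℝ E) (𝓕 : Set (E → ℝ)) : Prop :=
  ∃ F ∈ 𝓕, ∃ x, dev x ∈ H ∧ ∀ v ∈ V, fderiv ℝ F (dev x) v = 0

/-- Some function in `𝓕` attains its minimum over `H` at a point of the developing image. -/
def HasMinimum (dev : X → E) (H : Set E) (𝓕 : Set (E → ℝ)) : Prop :=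
  ∃ F ∈ 𝓕, ∃ x, dev x ∈ H ∧ ∀ q ∈ H, F (dev x) ≤ F q

/-- **Theorem.** Let `Γ \ X` be a closed affine manifold of positive dimension, with `X` connected,
such that no finite covering of it has a vector field without zeros (this is the case if its Euler
characteristic is not zero). Then there are a subgroup `G` of finite index and a `G`-invariant
affine subspace `H` of positive dimension, which meets the developing image, such that for every
subgroup `K` of finite index in `G` there are no proper `K`-invariant convex subsets of `H`, and every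
nonempty convex set of `C¹` functions that is preserved by `K` up to positive scalars and additive
constants contains a function with a critical point on the developing image, and, if its members are
convex on `H`, a function that attains its minimum over `H` on the developing image. -/
theorem result [T2Space X] [ConnectedSpace X] [FiniteDimensional ℝ E] [Nontrivial E]
    {dev : X → E} {hol : Γ →* (E ≃ᵃ[ℝ] E)} (D : ClosedAffine X Γ E dev hol)
    (hno : ∀ K : Subgroup Γ, K.FiniteIndex → ¬ HasField hol X K) :
    ∃ (G : Subgroup Γ) (H : AffineSubspace ℝ E), G.FiniteIndex ∧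
      (∀ γ ∈ G, ∀ q ∈ H, hol γ q ∈ H) ∧ H.direction ≠ ⊥ ∧ (∃ x, dev x ∈ H) ∧
      ∀ K ≤ G, K.FiniteIndex → NoConvex hol K H ∧ ∀ 𝓕, Family hol K H 𝓕 →
        HasCritical dev H H.direction 𝓕 ∧ ((∀ F ∈ 𝓕, ConvexOn ℝ H F) → HasMinimum dev H 𝓕) := by
  have D' : Pool.Agent.W689.Ch.AffMfd X Γ E dev hol := ⟨D.loc, D.cont, D.equi, D.pd, D.cc⟩
  obtain ⟨G, H, x₀, m⟩ := Pool.Agent.Y150.Ch.exists_min D' (fun K hK ⟨Z, h1, h2, h3⟩ =>
    hno K hK ⟨Z, by
      have h4 : {x | dev x ∈ (⊤ : AffineSubspace ℝ E)} = univ :=
        eq_univ_of_forall fun x => trivial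
      rw [h4] at h1
      exact continuousOn_univ.1 h1, fun γ hγ x => h3 ⟨γ, hγ⟩ x trivial,
      fun x => (h2 x trivial).2⟩)
  refine ⟨G, H, m.fin, m.inv, m.dir, ⟨x₀, m.mem⟩, fun K hK hKf => ⟨?_, fun 𝓕 h𝓕 => ?_⟩⟩
  · rintro C hCH hC ⟨p, hp⟩ hinv
    exact m.star K hK hKf C p hp hCH (hC.starConvex hp) hinv
  · obtain ⟨F, hF, x, hx, hcr⟩ := Pool.Agent.Q138.Ch.crit D' m hK hKf h𝓕.convex h𝓕.nonempty
      h𝓕.smooth h𝓕.semi
    refine ⟨⟨F, hF, x, hx, hcr⟩, fun hcv => ⟨F, hF, x, hx, fun q hq => ?_⟩⟩
    have hdir : q - dev x ∈ H.direction := AffineSubspace.vsub_mem_direction hq hx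
    have hmem : ∀ t : ℝ, dev x + t • (q - dev x) ∈ H := fun t => by
      have := AffineSubspace.vadd_mem_of_mem_direction (H.direction.smul_mem t hdir) hx
      rwa [vadd_eq_add, add_comm] at this
    have h1 : HasDerivAt (fun t : ℝ => F (dev x + t • (q - dev x))) 0 0 := by
      have h2 : HasDerivAt (fun t : ℝ => dev x + t • (q - dev x)) (q - dev x) 0 := by
        have := ((hasDerivAt_id (0 : ℝ)).smul_const (q - dev x)).const_add (dev x)
        simpa using this
      have h3 : HasFDerivAt F (fderiv ℝ F (dev x)) (dev x + (0 : ℝ) • (q - dev x)) := by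
        rw [zero_smul, add_zero]
        exact (((h𝓕.smooth F hF).differentiable one_ne_zero) _).hasFDerivAt
      have h4 := h3.comp_hasDerivAt (0 : ℝ) h2
      rw [hcr _ hdir] at h4
      exact h4
    have h2 : ConvexOn ℝ univ (fun t : ℝ => F (dev x + t • (q - dev x))) := by
      refine ⟨convex_univ, fun s _ t _ a b ha hb hab => ?_⟩
      have h3 := (hcv F hF).2 (hmem s) (hmem t) ha hb hab
      have h4 : a • (dev x + s • (q - dev x)) + b • (dev x + t • (q - dev x)) =
          dev x + (a • s + b • t) • (q - dev x) := by
        have : b = 1 - a := by linarith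
        rw [this, smul_eq_mul, smul_eq_mul]; module
      rw [h4] at h3
      exact h3
    have h3 := h2.le_slope_of_hasDerivAt (mem_univ (0 : ℝ)) (mem_univ (1 : ℝ)) one_pos h1
    rw [slope_def_field] at h3
    simp only [zero_smul, add_zero, one_smul, sub_zero, div_one, add_sub_cancel] at h3
    linarith

end Pool.Agent.Results.MP_1fa9a4_gt.CriticalPoints
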