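import Pool.Agent.Q138.Ch.Coin

/-!
# Coincidences of equivariant maps and closed affine manifolds

Chern's conjecture says that closed affine manifolds have Euler characteristic zero. A closed
affine manifold with non-zero Euler characteristic has no finite covering with a vector field
without zeros (Poincare and Hopf). We prove that for every closed affine manifold with this property
there are, after a finite covering, an invariant affine subspace `H` of positive dimension which
meets the developing image and has no proper invariant convex subsets, such that, for all subgroups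
`K` of finite index,

* any two continuous maps from `H` to `H` that commute with `K` coincide at some point of the
  developing image; in particular each of them has a fixed point there;
* if `K` acts by affine maps on a normed space `W` of any dimension, and `C ⊆ W` is a nonempty
  invariant convex set, then any two continuous equivariant maps from `C` to `H` coincide somewhere,
  and the image of each of them meets the developing image.

By the known cases of the conjecture `H` has dimension at least four. So in dimension four `H` is the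
whole affine space.
-/

set_option autoImplicit false

open Set Filter Topology

namespace Pool.Agent.Results.MP_1fa9a4_gt.EquivariantMaps

/-- A closed affine manifold `Γ \ X` modelled on the vector space `E`: the group `Γ` acts on the
Hausdorff space `X` properly discontinuously and with compact quotient, and the developing map
`dev` is a local homeomorphism to `E` that is equivariant with respect to the affine holonomy
`hol`. -/
structure ClosedAffine (X Γ E : Type) [TopologicalSpace X] [Group Γ] [MulAction Γ X]
    [NormedAddCommGroup E] [NormedSpace ℝ E] (dev : X → E) (hol : Γ →* (E ≃ᵃ[ℝ] E)) : Prop where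
  /-- the developing map is a local homeomorphism -/
  loc : IsLocalHomeomorph dev
  /-- the group acts by homeomorphisms -/
  cont : ∀ γ : Γ, Continuous fun x : X => γ • x
  /-- the developing map is equivariant -/
  equi : ∀ (γ : Γ) (x : X), dev (γ • x) = hol γ (dev x)
  /-- the action is properly discontinuous -/
  pd : ∀ K : Set X, IsCompact K → {γ : Γ | ∃ x ∈ K, γ • x ∈ K}.Finite
  /-- the quotient is compact -/
  cc : ∃ K : Set X, IsCompact K ∧ ∀ x : X, ∃ γ : Γ, ∃ k ∈ K, γ • k = x

variable {X Γ E : Type} [TopologicalSpace X] [Group Γ] [MulAction Γ X] [NormedAddCommGroup E]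
  [NormedSpace ℝ E]

/-- The covering `K \ X` of `Γ \ X` has a continuous vector field without zeros. -/
def HasField (hol : Γ →* (E ≃ᵃ[ℝ] E)) (X : Type) [TopologicalSpace X] [MulAction Γ X]
    (K : Subgroup Γ) : Prop :=
  ∃ Z : X → E, Continuous Z ∧ (∀ γ ∈ K, ∀ x : X, Z (γ • x) = (hol γ).linear (Z x)) ∧ ∀ x, Z x ≠ 0

/-- `H` has no proper nonempty convex subset which is invariant under `K`. -/
def NoConvex (hol : Γ →* (E ≃ᵃ[ℝ] E)) (K : Subgroup Γ) (H : Set E) : Prop :=
  ∀ C ⊆ H, Convex ℝ C → C.Nonempty → (∀ γ ∈ K, ∀ q ∈ C, hol γ q ∈ C) → C = H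

/-- The group `K` acts on `W` by affine maps, `C` is a nonempty convex invariant subset of `W`, and
`f` is a continuous equivariant map from `C` to `H`. -/
structure EquiMap {W : Type} [NormedAddCommGroup W] [NormedSpace ℝ W] (hol : Γ →* (E ≃ᵃ[ℝ] E))
    (K : Subgroup Γ) (H : Set E) (a : K →* (W ≃ᵃ[ℝ] W)) (C : Set W) (f : W → E) : Prop where
  /-- `C` is convex -/
  convex : Convex ℝ C
  /-- `C` is nonempty -/
  nonempty : C.Nonempty
  /-- `C` is invariant -/
  inv : ∀ γ, ∀ w ∈ C, a γ w ∈ C
  /-- `f` is continuous on `C` -/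
  cont : ContinuousOn f C
  /-- `f` maps `C` to `H` -/
  maps : ∀ w ∈ C, f w ∈ H
  /-- `f` is equivariant on `C` -/
  equi : ∀ γ : K, ∀ w ∈ C, f (a γ w) = hol γ (f w)

/-- Two equivariant maps from `C` to `H` coincide somewhere, and their images meet the developing
image. -/
def MapsCoincide (dev : X → E) (hol : Γ →* (E ≃ᵃ[ℝ] E)) (K : Subgroup Γ) (H : Set E) : Prop :=
  ∀ (W : Type) [NormedAddCommGroup W] [NormedSpace ℝ W] (a : K →* (W ≃ᵃ[ℝ] W)) (C : Set W)
    (f g : W → E), EquiMap hol K H a C f → EquiMap hol K H a C g →
    (∃ w ∈ C, f w = g w) ∧ ∃ w ∈ C, ∃ x, dev x = f w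

/-- Two continuous maps from `H` to `H` that commute with `K` coincide at some point of the
developing image. -/
def SelfMapsCoincide (dev : X → E) (hol : Γ →* (E ≃ᵃ[ℝ] E)) (K : Subgroup Γ) (H : Set E) : Prop :=
  ∀ f g : E → E, ContinuousOn f H → ContinuousOn g H → (∀ q ∈ H, f q ∈ H) → (∀ q ∈ H, g q ∈ H) →
    (∀ γ ∈ K, ∀ q ∈ H, f (hol γ q) = hol γ (f q)) → (∀ γ ∈ K, ∀ q ∈ H, g (hol γ q) = hol γ (g q)) →
    ∃ x, dev x ∈ H ∧ f (dev x) = g (dev x)

/-- **Theorem.** Let `Γ \ X` be a closed affine manifold of positive dimension, with `X` connected,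
such that no finite covering of it has a vector field without zeros (this is the case if its Euler
characteristic is not zero). Then there are a subgroup `G` of finite index and a `G`-invariant
affine subspace `H` of positive dimension, which meets the developing image, such that for every
subgroup `K` of finite index in `G` there are no proper `K`-invariant convex subsets of `H`, any two
continuous self-maps of `H` commuting with `K` coincide at a point of the developing image, and any
two continuous equivariant maps to `H` from a convex set with an affine action of `K` coincide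
somewhere and have images which meet the developing image. -/
theorem result [T2Space X] [ConnectedSpace X] [FiniteDimensional ℝ E] [Nontrivial E]
    {dev : X → E} {hol : Γ →* (E ≃ᵃ[ℝ] E)} (D : ClosedAffine X Γ E dev hol)
    (hno : ∀ K : Subgroup Γ, K.FiniteIndex → ¬ HasField hol X K) :
    ∃ (G : Subgroup Γ) (H : AffineSubspace ℝ E), G.FiniteIndex ∧
      (∀ γ ∈ G, ∀ q ∈ H, hol γ q ∈ H) ∧ H.direction ≠ ⊥ ∧ (∃ x, dev x ∈ H) ∧
      ∀ K ≤ G, K.FiniteIndex → NoConvex hol K H ∧ SelfMapsCoincide dev hol K H ∧
        MapsCoincide dev hol K H := by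
  have D' : Pool.Agent.W689.Ch.AffMfd X Γ E dev hol := ⟨D.loc, D.cont, D.equi, D.pd, D.cc⟩
  obtain ⟨G, H, x₀, m⟩ := Pool.Agent.Y150.Ch.exists_min D' (fun K hK ⟨Z, h1, h2, h3⟩ =>
    hno K hK ⟨Z, by
      have h4 : {x | dev x ∈ (⊤ : AffineSubspace ℝ E)} = univ :=
        eq_univ_of_forall fun x => trivial
      rw [h4] at h1
      exact continuousOn_univ.1 h1, fun γ hγ x => h3 ⟨γ, hγ⟩ x trivial,
      fun x => (h2 x trivial).2⟩)
  refine ⟨G, H, m.fin, m.inv, m.dir, ⟨x₀, m.mem⟩, fun K hK hKf => ⟨?_, ?_, ?_⟩⟩
  · rintro C hCH hC ⟨p, hp⟩ hinv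
    exact m.star K hK hKf C p hp hCH (hC.starConvex hp) hinv
  · intro f g hf hg hfH hgH hfe hge
    have hd : MapsTo dev {x | dev x ∈ H} (H : Set E) := fun x hx => hx
    exact Pool.Agent.Q138.Ch.coincide_of D' m hK hKf (f := fun x => f (dev x))
      (g := fun x => g (dev x)) (hf.comp D.loc.continuous.continuousOn hd)
      (hg.comp D.loc.continuous.continuousOn hd) (fun x hx => hfH _ hx) (fun x hx => hgH _ hx)
      (fun γ hγ x hx => by rw [D.equi, hfe γ hγ _ hx]) (fun γ hγ x hx => by
        rw [D.equi, hge γ hγ _ hx])
  · intro W _ _ a C f g hf hg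
    obtain ⟨h, hh, hhC, hhe⟩ := Pool.Agent.Q138.Ch.exists_map D' hKf a hf.convex hf.nonempty hf.inv
    have key : ∀ f : W → E, EquiMap hol K H a C f →
        Continuous (fun x => f (h x)) ∧ (∀ x, f (h x) ∈ H) ∧
          ∀ γ ∈ K, ∀ x, f (h (γ • x)) = hol γ (f (h x)) := by
      intro f hf
      refine ⟨hf.cont.comp_continuous hh hhC, fun x => hf.maps _ (hhC x), fun γ hγ x => ?_⟩
      have h1 := hhe ⟨γ, hγ⟩ x
      have h2 : (⟨γ, hγ⟩ : K) • x = γ • x := rfl
      rw [h2] at h1
      rw [h1, hf.equi ⟨γ, hγ⟩ _ (hhC x)]
    obtain ⟨f1, f2, f3⟩ := key f hf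
    obtain ⟨g1, g2, g3⟩ := key g hg
    constructor
    · obtain ⟨x, -, hx⟩ := Pool.Agent.Q138.Ch.coincide_of D' m hK hKf f1.continuousOn
        g1.continuousOn (fun x _ => f2 x) (fun x _ => g2 x) (fun γ hγ x _ => f3 γ hγ x)
        (fun γ hγ x _ => g3 γ hγ x)
      exact ⟨h x, hhC x, hx⟩
    · obtain ⟨x, -, hx⟩ := Pool.Agent.Q138.Ch.coincide_of D' m hK hKf f1.continuousOn
        D.loc.continuous.continuousOn (fun x _ => f2 x) (fun x hx => hx)
        (fun γ hγ x _ => f3 γ hγ x) (fun γ hγ x _ => D.equi γ x)
      exact ⟨h x, hhC x, x, hx.symm⟩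

end Pool.Agent.Results.MP_1fa9a4_gt.EquivariantMaps
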